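import Pool.Agent.helper88.RL.SpecL

set_option autoImplicit false

/-! Row rl:NBD: the number of nonzero lattice vectors in a box (adapted from helper72/T6/NBD.lean). -/

namespace Pool.Agent.RL

open Finset Pool.Agent.helper3.FT Pool.Agent.T6 Pool.Agent.RF

/-- the coordinates of a vector -/
def NBD_e (v : V4) : Fin 4 → ℤ := ![v.1, v.2.1, v.2.2.1, v.2.2.2]

theorem NBD_e_inj : Function.Injective NBD_e := by
  intro v w h
  have h0 : v.1 = w.1 := congrFun h 0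
  have h1 : v.2.1 = w.2.1 := congrFun h 1
  have h2 : v.2.2.1 = w.2.2.1 := congrFun h 2
  have h3 : v.2.2.2 = w.2.2.2 := congrFun h 3
  exact Prod.ext h0 (Prod.ext h1 (Prod.ext h2 h3))

/-- the sides of the box -/
noncomputable def NBD_S (_b : ℝ) : Fin 4 → ℝ := fun _ => 1

theorem NBD_all {Q : Fin 4 → Prop} (h0 : Q 0) (h1 : Q 1) (h2 : Q 2) (h3 : Q 3) : ∀ k, Q k := by
  intro k
  fin_cases k
  · exact h0
  · exact h1
  · exact h2
  · exact h3

theorem NBD_S_pos {b : ℝ} (_hb : 1 ≤ b) : ∀ k, 0 < NBD_S b k := fun _ => one_pos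

theorem NBD_le {b V : ℝ} (_hb : 1 ≤ b) {v : V4} (h : nrm b v ≤ V) :
    ∀ k, |(NBD_e v k : ℝ)| ≤ V * NBD_S b k := by
  unfold nrm at h
  rw [max_le_iff, max_le_iff, max_le_iff] at h
  obtain ⟨⟨h0, h1⟩, h2, h3⟩ := h
  refine NBD_all ?_ ?_ ?_ ?_
  · show |(v.1 : ℝ)| ≤ V * 1
    rwa [mul_one]
  · show |(v.2.1 : ℝ)| ≤ V * 1
    rwa [mul_one]
  · show |(v.2.2.1 : ℝ)| ≤ V * 1
    rwa [mul_one]
  · show |(v.2.2.2 : ℝ)| ≤ V * 1
    rwa [mul_one]

theorem NBD_ge {b l : ℝ} (_hb : 1 ≤ b) {v : V4} (h : l ≤ nrm b v) :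
    ∃ k, l * NBD_S b k ≤ |(NBD_e v k : ℝ)| := by
  unfold nrm at h
  rw [le_max_iff, le_max_iff, le_max_iff] at h
  rcases h with (h | h) | (h | h)
  · refine ⟨0, ?_⟩
    show l * 1 ≤ |(v.1 : ℝ)|
    rwa [mul_one]
  · refine ⟨1, ?_⟩
    show l * 1 ≤ |(v.2.1 : ℝ)|
    rwa [mul_one]
  · refine ⟨2, ?_⟩
    show l * 1 ≤ |(v.2.2.1 : ℝ)|
    rwa [mul_one]
  · refine ⟨3, ?_⟩
    show l * 1 ≤ |(v.2.2.2 : ℝ)|
    rwa [mul_one]

theorem NBD_dvd (d : ℕ) (x : OO) : ((d : ℕ) : OO) ∣ x ↔ (d : ℤ) ∣ x.re ∧ (d : ℤ) ∣ x.im := by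
  constructor
  · rintro ⟨y, rfl⟩
    rw [QuadraticAlgebra.re_mul, QuadraticAlgebra.im_mul, QuadraticAlgebra.re_natCast, QuadraticAlgebra.im_natCast]
    exact ⟨⟨y.re, by ring⟩, ⟨y.im, by ring⟩⟩
  · rintro ⟨⟨u, hu⟩, ⟨v, hv⟩⟩
    refine ⟨⟨u, v⟩, ?_⟩
    ext
    · rw [QuadraticAlgebra.re_mul, QuadraticAlgebra.re_natCast, QuadraticAlgebra.im_natCast, hu]
      ring
    · rw [QuadraticAlgebra.im_mul, QuadraticAlgebra.re_natCast, QuadraticAlgebra.im_natCast, hv]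
      ring

theorem NBD_FF_add (k a a' z z' : OO) : FF k (a + a') (z + z') = FF k a z + FF k a' z' := by
  unfold FF
  rw [star_add]
  ring

theorem NBD_FF_zero (k : OO) : FF k 0 0 = 0 := by
  unfold FF
  rw [star_zero]
  ring

/-- the value of the cubic form -/
def NBD_g (r : ℕ) (v : Fin 4 → ℤ) : OO := FF ⟨(r : ℤ), 1⟩ ⟨v 0, v 1⟩ ⟨v 2, v 3⟩

theorem NBD_mk_add (x y x' y' : ℤ) : (⟨x + x', y + y'⟩ : OO) = ⟨x, y⟩ + ⟨x', y'⟩ := by
  ext
  · rw [QuadraticAlgebra.re_add]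
  · rw [QuadraticAlgebra.im_add]

theorem NBD_g_add (r : ℕ) (v w : Fin 4 → ℤ) : NBD_g r (v + w) = NBD_g r v + NBD_g r w := by
  unfold NBD_g
  rw [Pi.add_apply, Pi.add_apply, Pi.add_apply, Pi.add_apply, NBD_mk_add, NBD_mk_add, NBD_FF_add]

theorem NBD_g_zero (r : ℕ) : NBD_g r 0 = 0 := by
  have h := NBD_g_add r 0 0
  rw [add_zero] at h
  exact left_eq_add.1 h

/-- the congruence in the two coordinates -/
def NBD_phi (d r : ℕ) : (Fin 4 → ℤ) →+ ZMod d × ZMod d where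
  toFun v := (((NBD_g r v).re : ZMod d), ((NBD_g r v).im : ZMod d))
  map_zero' := by
    rw [NBD_g_zero, QuadraticAlgebra.re_zero, QuadraticAlgebra.im_zero, Int.cast_zero]
    rfl
  map_add' v w := by
    rw [NBD_g_add, QuadraticAlgebra.re_add, QuadraticAlgebra.im_add, Int.cast_add, Int.cast_add]
    rfl

theorem NBD_phi_zero (d r : ℕ) (v : V4) : NBD_phi d r (NBD_e v) = 0 ↔ InG d r v := by
  unfold InG
  have h3 : NBD_phi d r (NBD_e v) = (((NBD_g r (NBD_e v)).re : ZMod d), ((NBD_g r (NBD_e v)).im : ZMod d)) := rfl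
  have h4 : NBD_g r (NBD_e v) = FF ⟨(r : ℤ), 1⟩ (va4 v) (vz4 v) := rfl
  rw [h3, Prod.mk_eq_zero, ZMod.intCast_zmod_eq_zero_iff_dvd, ZMod.intCast_zmod_eq_zero_iff_dvd, ← NBD_dvd, h4]

theorem NBD_alg (K L f s t W W' : OO) (d e m u m' : OO) (hs : K - L = s) (h8 : s ^ 8 = 625)
    (h5 : 5 * e = 1 + d * m) (h6 : 625 * u = 1 + d * m')
    (hW : W' = -(t * u * s * (-21 * K ^ 2 + 7 * K * L - L ^ 2))) :
    5 * (e * (t * u * s * (K ^ 4 - 7 * K ^ 3 * L + 21 * K ^ 2 * L ^ 2 - 35 * K * L ^ 3 + 35 * L ^ 4) - 2 * f * W * L ^ 2)) * K ^ 3 +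
      2 * f * (K ^ 2 * W) * K * L ^ 2 - (L ^ 2 * W') * L ^ 3 =
    t + d * (m' * t + m * (t * u * s * (K ^ 4 - 7 * K ^ 3 * L + 21 * K ^ 2 * L ^ 2 - 35 * K * L ^ 3 + 35 * L ^ 4) - 2 * f * W * L ^ 2) * K ^ 3) := by
  subst hs
  linear_combination ((t * u * (K - L) * (K ^ 4 - 7 * K ^ 3 * L + 21 * K ^ 2 * L ^ 2 - 35 * K * L ^ 3 + 35 * L ^ 4) - 2 * f * W * L ^ 2) * K ^ 3) * h5 -
    L ^ 5 * hW + t * u * h8 + t * h6

theorem NBD_r5 : r5 ^ 8 = (625 : OO) := by
  have h : r5 * r5 = (5 : OO) := by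
    ext
    · rw [QuadraticAlgebra.re_mul]
      show (-1 : ℤ) * (-1) + 1 * 2 * 2 = (5 : OO).re
      rw [QuadraticAlgebra.re_ofNat]
      norm_num
    · rw [QuadraticAlgebra.im_mul]
      show (-1 : ℤ) * 2 + 2 * (-1) + 1 * 2 * 2 = (5 : OO).im
      rw [QuadraticAlgebra.im_ofNat]
      norm_num
  calc r5 ^ 8 = (r5 * r5) ^ 4 := by ring
    _ = (5 : OO) ^ 4 := by rw [h]
    _ = 625 := by norm_num

theorem NBD_g_mk (r : ℕ) (a z : OO) : NBD_g r ![a.re, a.im, z.re, z.im] = FF ⟨(r : ℤ), 1⟩ a z := by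
  obtain ⟨a1, a2⟩ := a
  obtain ⟨z1, z2⟩ := z
  rfl

theorem NBD_phi_surj {d r : ℕ} (hd : 1 ≤ d) (h5 : Nat.Coprime d 5) :
    Function.Surjective (NBD_phi d r) := by
  have : NeZero d := ⟨by omega⟩
  rintro ⟨α, β⟩
  obtain ⟨A, hA⟩ := ZMod.intCast_surjective α
  obtain ⟨B, hB⟩ := ZMod.intCast_surjective β
  have hc : IsCoprime (5 : ℤ) (d : ℤ) := by
    have h := Nat.isCoprime_iff_coprime.2 h5.symm
    exact_mod_cast h
  obtain ⟨u, m', hu⟩ : IsCoprime ((5 : ℤ) ^ 4) (d : ℤ) := hc.pow_left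
  obtain ⟨e, m, he⟩ := hc
  set K : OO := ⟨(r : ℤ), 1⟩ with hK
  set t : OO := ⟨A, B⟩ with ht
  have hs : K - star K = r5 := by
    ext
    · rw [QuadraticAlgebra.re_sub, QuadraticAlgebra.re_star]
      show (r : ℤ) - (r + 1 * 1) = -1
      ring
    · rw [QuadraticAlgebra.im_sub, QuadraticAlgebra.im_star]
      show (1 : ℤ) - (-1) = 2
      ring
  have he' : (5 : OO) * (e : OO) = 1 + (d : OO) * ((-m : ℤ) : OO) := by
    have h : (5 : ℤ) * e = 1 + (d : ℤ) * (-m) := by linarith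
    exact_mod_cast congrArg (Int.cast : ℤ → OO) h
  have hu' : (625 : OO) * (u : OO) = 1 + (d : OO) * ((-m' : ℤ) : OO) := by
    have h : (625 : ℤ) * u = 1 + (d : ℤ) * (-m') := by linarith
    exact_mod_cast congrArg (Int.cast : ℤ → OO) h
  set Y : OO := t * u * r5 * (-21 * K ^ 2 + 7 * K * star K - star K ^ 2) with hY
  set W : OO := -star Y with hW
  have hW' : star W = -Y := by rw [hW, star_neg, star_star]
  set a : OO := e * (t * u * r5 * (K ^ 4 - 7 * K ^ 3 * star K + 21 * K ^ 2 * star K ^ 2 - 35 * K * star K ^ 3 + 35 * star K ^ 4) -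
    2 * star ph * W * star K ^ 2) with ha
  have hst : star (K ^ 2 * W) = star K ^ 2 * star W := by
    rw [star_mul', star_pow]
  have key := NBD_alg K (star K) (star ph) r5 t W (star W) (d : OO) (e : OO) ((-m : ℤ) : OO) (u : OO) ((-m' : ℤ) : OO) hs NBD_r5 he' hu' hW'
  have hFF : (d : OO) ∣ FF K a (K ^ 2 * W) - t := by
    have h : FF K a (K ^ 2 * W) = 5 * a * K ^ 3 + 2 * star ph * (K ^ 2 * W) * K * star K ^ 2 - star K ^ 2 * star W * star K ^ 3 := by
      unfold FF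
      rw [hst]
    rw [h, ha, key, add_sub_cancel_left]
    exact dvd_mul_right _ _
  obtain ⟨g1, g2⟩ := (NBD_dvd d _).1 hFF
  rw [QuadraticAlgebra.re_sub] at g1
  rw [QuadraticAlgebra.im_sub] at g2
  have hgg : NBD_g r ![a.re, a.im, (K ^ 2 * W).re, (K ^ 2 * W).im] = FF K a (K ^ 2 * W) := NBD_g_mk r a (K ^ 2 * W)
  refine ⟨![a.re, a.im, (K ^ 2 * W).re, (K ^ 2 * W).im], ?_⟩
  refine Prod.ext ?_ ?_
  · show ((NBD_g r ![a.re, a.im, (K ^ 2 * W).re, (K ^ 2 * W).im]).re : ZMod d) = α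
    rw [hgg]
    have h := (ZMod.intCast_zmod_eq_zero_iff_dvd _ d).2 g1
    rw [Int.cast_sub, sub_eq_zero] at h
    rw [h]
    exact hA
  · show ((NBD_g r ![a.re, a.im, (K ^ 2 * W).re, (K ^ 2 * W).im]).im : ZMod d) = β
    rw [hgg]
    have h := (ZMod.intCast_zmod_eq_zero_iff_dvd _ d).2 g2
    rw [Int.cast_sub, sub_eq_zero] at h
    rw [h]
    exact hB

theorem NBD (hGP : GP_stmt) (hGR : GR_stmt) (hN1 : N1_stmt) (hN2 : N2_stmt) (hN4 : N4_stmt) :
    NBD_stmt := by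
  classical
  intro b V d r F hb hd h5 hF
  have hb0 : 0 < b := by linarith
  have hd0 : (0 : ℝ) < d := by exact_mod_cast hd
  rcases F.eq_empty_or_nonempty with hE | ⟨v₀, hv₀⟩
  · left
    rw [hE, card_empty]
    push_cast
    positivity
  have hlV : lamb b d r ≤ V :=
    ((hN4 b d r hb hd).2 v₀ (hF v₀ hv₀).1 (hF v₀ hv₀).2.1).trans (hF v₀ hv₀).2.2
  have hl0 : 0 < lamb b d r := by
    obtain ⟨v, hv, -, hv'⟩ := (hN4 b d r hb hd).1
    rw [← hv']
    have h1 := (hN1 b hb v v).2.2.2.2.1 hv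
    exact lt_of_lt_of_le (by positivity) h1
  have hV0 : 0 < V := hl0.trans_le hlV
  by_cases hind : ∃ w : Fin 4 → V4, (∀ i, w i ∈ F) ∧ LinearIndependent ℤ (fun i => NBD_e (w i))
  · left
    obtain ⟨w, hw, hli⟩ := hind
    have : NeZero d := ⟨by omega⟩
    have h1 := hGP (ZMod d × ZMod d) (NBD_phi d r) (NBD_phi_surj hd h5) (fun k => V * NBD_S b k)
      (fun i => NBD_e (w i)) hli (fun i => ⟨(NBD_phi_zero d r (w i)).2 (hF _ (hw i)).2.1,
        NBD_le hb (hF _ (hw i)).2.2⟩) (F.image NBD_e) (fun v hv => by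
          obtain ⟨u, hu, rfl⟩ := mem_image.1 hv
          exact ⟨(NBD_phi_zero d r u).2 (hF u hu).2.1, NBD_le hb (hF u hu).2.2⟩)
    rw [card_image_of_injective _ NBD_e_inj, Fintype.card_prod, ZMod.card] at h1
    have h2 : ∏ k, (11 * (V * NBD_S b k)) = 14641 * V ^ 4 := by
      rw [Fin.prod_univ_four]
      show 11 * (V * 1) * (11 * (V * 1)) * (11 * (V * 1)) * (11 * (V * 1)) = _
      ring
    rw [h2] at h1
    rw [le_div_iff₀ (by positivity)]
    push_cast at h1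
    linarith
  · right
    refine ⟨hlV, ?_⟩
    have h1 := hGR (NBD_S b) V (lamb b d r) (insert 0 (F.image NBD_e)) (NBD_S_pos hb) hl0 hV0.le
      (fun v hv k => by
        rcases mem_insert.1 hv with rfl | hv
        · have := NBD_S_pos hb k
          simp only [Pi.zero_apply, Int.cast_zero, abs_zero]
          positivity
        · obtain ⟨u, hu, rfl⟩ := mem_image.1 hv
          exact NBD_le hb (hF u hu).2.2 k) ?_ ?_
    · have h2 : (F.card : ℝ) ≤ ((insert 0 (F.image NBD_e)).card : ℝ) := by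
        rw [← card_image_of_injective F NBD_e_inj]
        exact_mod_cast card_le_card (subset_insert _ _)
      have h3 : 1 ≤ V / lamb b d r := by rwa [le_div_iff₀ hl0, one_mul]
      have h4 : 1 + 6 * V / lamb b d r ≤ 7 * (V / lamb b d r) := by
        rw [mul_div_assoc]
        linarith
      calc (F.card : ℝ) ≤ _ := h2
        _ ≤ (1 + 6 * V / lamb b d r) ^ 3 := h1
        _ ≤ (7 * (V / lamb b d r)) ^ 3 := by
          have : 0 ≤ 6 * V / lamb b d r := by positivity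
          exact pow_le_pow_left₀ (by linarith) h4 3
        _ = 343 * (V / lamb b d r) ^ 3 := by ring
    · -- separation
      have hrep : ∀ v ∈ insert 0 (F.image NBD_e), ∃ u : V4, InG d r u ∧ NBD_e u = v := by
        intro v hv
        rcases mem_insert.1 hv with rfl | hv
        · refine ⟨0, hN2.1 d r, ?_⟩
          funext k
          revert k
          exact NBD_all rfl rfl rfl rfl
        · obtain ⟨u, hu, rfl⟩ := mem_image.1 hv
          exact ⟨u, (hF u hu).2.1, rfl⟩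
      intro v hv v' hv' hne
      obtain ⟨u, hu, rfl⟩ := hrep v hv
      obtain ⟨u', hu', rfl⟩ := hrep v' hv'
      have h2 : InG d r (u + -u') := (hN2.2.1 d r u (-u') hu (hN2.2.1 d r u' u' hu' hu').2).1
      have h3 : u + -u' ≠ 0 := by
        intro h
        apply hne
        have : u = u' := by
          have := add_neg_eq_zero.1 h
          exact this
        rw [this]
      obtain ⟨k, hk⟩ := NBD_ge hb ((hN4 b d r hb hd).2 _ h3 h2)
      refine ⟨k, hk.trans (le_of_eq ?_)⟩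
      have h4 : ∀ k, NBD_e (u + -u') k = NBD_e u k - NBD_e u' k := by
        refine NBD_all ?_ ?_ ?_ ?_
        · show u.1 + -u'.1 = u.1 - u'.1
          ring
        · show u.2.1 + -u'.2.1 = u.2.1 - u'.2.1
          ring
        · show u.2.2.1 + -u'.2.2.1 = u.2.2.1 - u'.2.2.1
          ring
        · show u.2.2.2 + -u'.2.2.2 = u.2.2.2 - u'.2.2.2
          ring
      rw [h4 k]
    · -- rank
      intro w hw hli
      apply hind
      have h2 : ∀ i, ∃ u ∈ F, NBD_e u = w i := by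
        intro i
        rcases mem_insert.1 (hw i) with h | h
        · exact absurd h (hli.ne_zero i)
        · obtain ⟨u, hu, h'⟩ := mem_image.1 h
          exact ⟨u, hu, h'⟩
      choose u hu hu' using h2
      refine ⟨u, hu, ?_⟩
      have h3 : (fun i => NBD_e (u i)) = w := funext hu'
      rw [h3]
      exact hli

end Pool.Agent.RL
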